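import Pool.Agent.Lib.MP_bc213e_ag.Hyp.Defs

/-! The link between the Hilbert polynomials of the multiples `t L` and the uniform polynomial. -/

namespace Pool.Agent.Lib.MP_bc213e_ag.KBF

open Filter Polynomial

/-- The specialisation of a polynomial in two variables at the first variable. -/
noncomputable def spec (P : MvPolynomial (Fin 2) ℚ) (t : ℚ) : ℚ[X] :=
  MvPolynomial.aeval ![C t, X] P

theorem spec_eval (P : MvPolynomial (Fin 2) ℚ) (t a : ℚ) :
    (spec P t).eval a = MvPolynomial.eval ![t, a] P := by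
  unfold spec
  induction P using MvPolynomial.induction_on with
  | C c => simp
  | add p q hp hq => simp only [map_add, eval_add, hp, hq]
  | mul_X p i hp =>
    simp only [map_mul, eval_mul, hp, MvPolynomial.aeval_X, MvPolynomial.eval_X]
    fin_cases i <;> simp

/-- The specialisation at the second variable. -/
noncomputable def spec' (P : MvPolynomial (Fin 2) ℚ) (a : ℚ) : ℚ[X] :=
  MvPolynomial.aeval ![X, C a] P

theorem spec'_eval (P : MvPolynomial (Fin 2) ℚ) (t a : ℚ) :
    (spec' P a).eval t = MvPolynomial.eval ![t, a] P := by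
  unfold spec'
  induction P using MvPolynomial.induction_on with
  | C c => simp
  | add p q hp hq => simp only [map_add, eval_add, hp, hq]
  | mul_X p i hp =>
    simp only [map_mul, eval_mul, hp, MvPolynomial.aeval_X, MvPolynomial.eval_X]
    fin_cases i <;> simp

theorem eq_of_eventually {p q : ℚ[X]} (h : ∀ᶠ a : ℕ in atTop, p.eval (a : ℚ) = q.eval (a : ℚ)) :
    p = q := by
  obtain ⟨a₀, h⟩ := eventually_atTop.1 h
  refine eq_of_infinite_eval_eq p q ?_
  refine Set.infinite_of_injective_forall_mem (f := fun a : ℕ => ((a + a₀ : ℕ) : ℚ))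
    (fun a b hab => ?_) fun a => h _ (Nat.le_add_left _ _)
  have : a + a₀ = b + a₀ := Nat.cast_injective (R := ℚ) hab
  omega

/-- A polynomial that is frequently nonnegative on the naturals is eventually nonnegative. -/
theorem eventually_nonneg {q : ℚ[X]} (h : ∃ᶠ t : ℕ in atTop, 0 ≤ q.eval (t : ℚ)) :
    ∀ᶠ t : ℕ in atTop, 0 ≤ q.eval (t : ℚ) := by
  by_cases hd : 0 < q.degree
  · rcases le_or_gt 0 q.leadingCoeff with hl | hl
    · exact ((tendsto_atTop_of_leadingCoeff_nonneg q hd hl).comp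
        tendsto_natCast_atTop_atTop).eventually_ge_atTop 0
    · exfalso
      have h1 := ((tendsto_atBot_of_leadingCoeff_nonpos q hd hl.le).comp
        tendsto_natCast_atTop_atTop).eventually_lt_atBot 0
      obtain ⟨t, h2, h3⟩ := (h.and_eventually h1).exists
      exact absurd h2 (not_le.2 h3)
  · rw [eq_C_of_degree_le_zero (not_lt.1 hd)] at h ⊢
    obtain ⟨t, ht⟩ := h.exists
    exact Eventually.of_forall fun s => by simpa using ht

/-- The values at `0` of the Hilbert polynomials are the values of the uniform polynomial. -/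
theorem link {h : ℕ → ℕ → ℕ} {P : MvPolynomial (Fin 2) ℚ} {a₀ : ℕ}
    (hP : ∀ t a : ℕ, a₀ ≤ a → (h t a : ℚ) = MvPolynomial.eval ![(t : ℚ), (a : ℚ)] P)
    {p : ℕ → ℚ[X]} (hp : ∀ t, ∀ᶠ a : ℕ in atTop, (h t a : ℚ) = (p t).eval (a : ℚ)) (t : ℕ) :
    p t = spec P t :=
  eq_of_eventually ((hp t).mp ((eventually_ge_atTop a₀).mono fun a ha e => by
    rw [← e, spec_eval, hP t a ha]))

theorem link_chi {h : ℕ → ℕ → ℕ} {P : MvPolynomial (Fin 2) ℚ} {a₀ : ℕ}
    (hP : ∀ t a : ℕ, a₀ ≤ a → (h t a : ℚ) = MvPolynomial.eval ![(t : ℚ), (a : ℚ)] P)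
    {p : ℕ → ℚ[X]} (hp : ∀ t, ∀ᶠ a : ℕ in atTop, (h t a : ℚ) = (p t).eval (a : ℚ)) {c : ℚ} {d : ℕ}
    (chi : ∃ᶠ t : ℕ in atTop, c * (t : ℚ) ^ d ≤ (p t).eval 0) :
    ∀ᶠ t : ℕ in atTop, c * (t : ℚ) ^ d ≤ MvPolynomial.eval ![(t : ℚ), 0] P := by
  have e : ∀ t : ℕ, (spec' P 0 - C c * X ^ d).eval (t : ℚ) =
      MvPolynomial.eval ![(t : ℚ), 0] P - c * (t : ℚ) ^ d := fun t => by
    simp [spec'_eval]
  refine (eventually_nonneg (q := spec' P 0 - C c * X ^ d) (chi.mono fun t ht => ?_)).mono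
    fun t ht => ?_
  · rw [link hP hp t, spec_eval] at ht
    rw [e, sub_nonneg]
    exact ht
  · rwa [e, sub_nonneg] at ht

end Pool.Agent.Lib.MP_bc213e_ag.KBF
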